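import Pool.Agent.W798.KF.Stm

/-!
# Katz-Koester and Cauchy-Schwarz
-/

set_option autoImplicit false

open Finset
open scoped Pointwise

namespace Pool.Agent.W270.KF

open Pool.Agent.W798.SP Pool.Agent.W798.KF

theorem mem_fib {A : Finset ℝ} {l x : ℝ} : x ∈ fib A l ↔ x ∈ A ∧ l * x ∈ A := by
  unfold fib
  rw [mem_filter]

theorem t_C3 : S_C3 := by
  intro A S hA hS
  classical
  let W : Finset (Σ _ : ℝ, ℝ × ℝ) := S.sigma (fun l => A ×ˢ fib A l)
  let V : Finset (Σ _ : ℝ, ℝ) := S.sigma (fun l => fib (A * A) l)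
  let φ : (Σ _ : ℝ, ℝ × ℝ) → (Σ _ : ℝ, ℝ) := fun w => ⟨w.1, w.2.1 * w.2.2⟩
  let T : Finset (Σ _ : ℝ, ℝ × ℝ × ℝ) := (A / A).sigma (fun ρ => fib A ρ ×ˢ fib A ρ ×ˢ fib A ρ)
  have cW : W.card = A.card * ∑ l ∈ S, (fib A l).card := by
    simp only [W, card_sigma, card_product, mul_sum]
  have cV : V.card = ∑ l ∈ S, (fib (A * A) l).card := by
    simp only [V, card_sigma]
  have cT : T.card = ∑ l ∈ A / A, (fib A l).card ^ 3 := by
    simp only [T, card_sigma, card_product]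
    refine sum_congr rfl fun l _ => ?_
    ring
  have hmemW : ∀ w : (Σ _ : ℝ, ℝ × ℝ), w ∈ W ↔ w.1 ∈ S ∧ w.2.1 ∈ A ∧ w.2.2 ∈ A ∧
      w.1 * w.2.2 ∈ A := by
    intro w
    simp only [W, mem_sigma, mem_product, mem_fib]
  have hφ : ∀ w ∈ W, φ w ∈ V := by
    intro w hw
    obtain ⟨h1, h2, h3, h4⟩ := (hmemW w).1 hw
    simp only [V, φ, mem_sigma, mem_fib]
    refine ⟨h1, mul_mem_mul h2 h3, ?_⟩
    have : w.1 * (w.2.1 * w.2.2) = w.2.1 * (w.1 * w.2.2) := by ring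
    rw [this]
    exact mul_mem_mul h2 h4
  have hsum : W.card = ∑ v ∈ V, (W.filter (fun w => φ w = v)).card :=
    card_eq_sum_card_fiberwise hφ
  let P : Finset (Σ _ : (Σ _ : ℝ, ℝ), (Σ _ : ℝ, ℝ × ℝ) × (Σ _ : ℝ, ℝ × ℝ)) :=
    V.sigma (fun v => (W.filter (fun w => φ w = v)) ×ˢ (W.filter (fun w => φ w = v)))
  have cP : P.card = ∑ v ∈ V, (W.filter (fun w => φ w = v)).card ^ 2 := by
    simp only [P, card_sigma, card_product]
    refine sum_congr rfl fun l _ => ?_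
    ring
  have hPT : P.card ≤ T.card := by
    refine card_le_card_of_injOn (fun p => ⟨p.2.1.2.1 / p.2.2.2.1,
      (p.2.2.2.1, p.2.1.2.2, p.2.1.1 * p.2.1.2.2)⟩) ?_ ?_
    · rintro ⟨v, ⟨l, a, b⟩, ⟨l', a', b'⟩⟩ hp
      simp only [P, mem_coe, mem_sigma, mem_product, mem_filter, hmemW, φ] at hp
      obtain ⟨-, ⟨⟨h1, h2, h3, h4⟩, e⟩, ⟨⟨h1', h2', h3', h4'⟩, e'⟩⟩ := hp
      have hee := e.trans e'.symm
      rw [Sigma.mk.injEq] at hee
      obtain ⟨hl, hab⟩ := hee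
      have hab' : a * b = a' * b' := eq_of_heq hab
      have ha' : a' ≠ 0 := (hA a' h2').ne'
      simp only [T, mem_coe, mem_sigma, mem_product, mem_fib]
      refine ⟨div_mem_div h2 h2', ⟨h2', ?_⟩, ⟨h3, ?_⟩, ⟨h4, ?_⟩⟩
      · rw [div_mul_cancel₀ _ ha']
        exact h2
      · have : a / a' * b = b' := by
          rw [div_mul_eq_mul_div, hab', mul_div_cancel_left₀ _ ha']
        rw [this]
        exact h3'
      · have : a / a' * (l * b) = l' * b' := by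
          have h5 : a / a' * (l * b) = l * (a * b) / a' := by ring
          have h6 : l = l' := hl
          rw [h5, hab', h6]
          field_simp
        rw [this]
        exact h4'
    · rintro ⟨v, ⟨l, a, b⟩, ⟨l', a', b'⟩⟩ hp ⟨v₂, ⟨l₂, a₂, b₂⟩, ⟨l₂', a₂', b₂'⟩⟩ hp₂ heq
      simp only [P, mem_coe, mem_sigma, mem_product, mem_filter, hmemW, φ] at hp hp₂
      obtain ⟨-, ⟨⟨h1, h2, h3, h4⟩, e⟩, ⟨⟨h1', h2', h3', h4'⟩, e'⟩⟩ := hp
      obtain ⟨-, ⟨⟨k1, k2, k3, k4⟩, f⟩, ⟨⟨k1', k2', k3', k4'⟩, f'⟩⟩ := hp₂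
      have hee := e.trans e'.symm
      rw [Sigma.mk.injEq] at hee
      obtain ⟨hl, hab⟩ := hee
      have hff := f.trans f'.symm
      rw [Sigma.mk.injEq] at hff
      obtain ⟨kl, kab⟩ := hff
      have hl' : l = l' := hl
      have kl' : l₂ = l₂' := kl
      have hab' : a * b = a' * b' := eq_of_heq hab
      have kab' : a₂ * b₂ = a₂' * b₂' := eq_of_heq kab
      simp only [Sigma.mk.injEq, heq_eq_eq, Prod.mk.injEq] at heq
      obtain ⟨q1, q2, q3, q4⟩ := heq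
      subst q2 q3
      have hb : b ≠ 0 := (hA b h3).ne'
      have ha' : a' ≠ 0 := (hA a' h2').ne'
      have hll : l = l₂ := mul_right_cancel₀ hb q4
      have haa : a = a₂ := by
        have := congrArg (fun t => t * a') q1
        simpa [div_mul_cancel₀ _ ha'] using this
      have hbb : b' = b₂' := by
        have h7 : a' * b' = a' * b₂' := by rw [← hab', ← kab', haa]
        exact mul_left_cancel₀ ha' h7
      subst hll haa hbb hl' kl'
      subst e f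
      rfl
  rw [← cW, ← cV, ← cT]
  calc W.card ^ 2 = (∑ v ∈ V, (W.filter (fun w => φ w = v)).card) ^ 2 := by rw [← hsum]
    _ ≤ V.card * ∑ v ∈ V, (W.filter (fun w => φ w = v)).card ^ 2 := sq_sum_le_card_mul_sum_sq
    _ = V.card * P.card := by rw [cP]
    _ ≤ V.card * T.card := Nat.mul_le_mul_left _ hPT


end Pool.Agent.W270.KF
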